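import Mathlib
import Pool.Agent.V11172.BoelPerm

/-!
# Vertical log-concavity of the Boolean–Eulerian numbers (MP_2f7936)

`BoEl n k` is the number of bicolored decreasing binary trees on `n` vertices with `k - 1` right
edges, that is, `∑ 2 ^ pk(p)` over the permutations `p` of `n` letters with `k - 1` descents.
We prove that for every fixed `k` the sequence `BoEl n k` (`n ≥ k`) is log-concave.
-/

namespace Pool.Agent.Results.MP_2f7936_co.ColumnsLogConcave

open Finset

/-- the number of descents of a permutation (one-line notation `σ 0, σ 1, …, σ (n-1)`):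
positions `i` with `i + 1 < n` and `σ i > σ (i + 1)` -/
def des {n : ℕ} (σ : Equiv.Perm (Fin n)) : ℕ :=
  (univ.filter fun i : Fin n => ∃ h : (i : ℕ) + 1 < n, σ ⟨i + 1, h⟩ < σ i).card

/-- the number of peaks of a permutation: positions `i` with `i + 2 < n` and
`σ i < σ (i + 1) > σ (i + 2)` -/
def pk {n : ℕ} (σ : Equiv.Perm (Fin n)) : ℕ :=
  (univ.filter fun i : Fin n => ∃ h : (i : ℕ) + 2 < n,
    σ i < σ ⟨i + 1, Nat.lt_of_succ_lt h⟩ ∧ σ ⟨i + 2, h⟩ < σ ⟨i + 1, Nat.lt_of_succ_lt h⟩).card

/-- the polynomial in the peak weight: `∑ κ ^ pk(p)` over the permutations `p` of `n` letters with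
`k - 1` descents -/
noncomputable def weighted (κ : ℝ) (n k : ℕ) : ℝ :=
  ∑ σ : Equiv.Perm (Fin n), if des σ + 1 = k then κ ^ pk σ else 0

/-- the Boolean–Eulerian numbers: the sum of `2 ^ pk(p)` over the permutations `p` of `n` letters
with `k - 1` descents -/
def BoEl (n k : ℕ) : ℕ := ∑ σ : Equiv.Perm (Fin n), if des σ + 1 = k then 2 ^ pk σ else 0

/-- the Eulerian numbers: the number of permutations of `n` letters with `k - 1` descents -/
def Eul (n k : ℕ) : ℕ := (univ.filter fun σ : Equiv.Perm (Fin n) => des σ + 1 = k).card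

/-! ### Positions and lists -/

open Pool.Agent.V11172.Boel

lemma ldes_ofFn : ∀ (n : ℕ) (v : Fin n → ℕ), ldes (List.ofFn v) =
    ∑ i : Fin n, if ∃ h : (i : ℕ) + 1 < n, v ⟨i + 1, h⟩ < v i then 1 else 0
  | 0, v => by simp [ldes]
  | 1, v => by
    rw [Finset.sum_eq_zero]
    · simp [ldes]
    · intro i _
      rw [if_neg]
      rintro ⟨h, _⟩
      omega
  | n + 2, v => by
    have ih := ldes_ofFn (n + 1) (fun i => v i.succ)
    rw [List.ofFn_succ, Fin.sum_univ_succ]
    rw [List.ofFn_succ] at ih ⊢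
    rw [ldes, ih]
    congr 1
    · apply if_congr _ rfl rfl
      constructor
      · intro h
        exact ⟨by simp, h⟩
      · rintro ⟨_, h⟩
        exact h
    · apply Finset.sum_congr rfl
      intro i _
      apply if_congr _ rfl rfl
      constructor
      · rintro ⟨h, h2⟩
        exact ⟨by simpa using h, h2⟩
      · rintro ⟨h, h2⟩
        exact ⟨by simpa using h, h2⟩

lemma lpk_ofFn : ∀ (n : ℕ) (up : Bool) (v : Fin n → ℕ), lpk up (List.ofFn v) =
    (if up = true ∧ ∃ h : 1 < n, v ⟨1, h⟩ < v ⟨0, Nat.lt_of_succ_lt h⟩ then 1 else 0) +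
    ∑ i : Fin n, if ∃ h : (i : ℕ) + 2 < n,
      v i < v ⟨i + 1, Nat.lt_of_succ_lt h⟩ ∧ v ⟨i + 2, h⟩ < v ⟨i + 1, Nat.lt_of_succ_lt h⟩
      then 1 else 0
  | 0, up, v => by simp [lpk]
  | 1, up, v => by
    rw [Finset.sum_eq_zero, if_neg]
    · simp [lpk]
    · rintro ⟨_, h, _⟩
      omega
    · intro i _
      rw [if_neg]
      rintro ⟨h, _⟩
      omega
  | n + 2, up, v => by
    have ih := lpk_ofFn (n + 1) (decide (v 0 < v 1)) (fun i => v i.succ)
    rw [List.ofFn_succ, Fin.sum_univ_succ]
    rw [List.ofFn_succ] at ih ⊢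
    rw [lpk]
    have e : (fun i : Fin (n + 1) => v i.succ) 0 = v 1 := rfl
    have e' : v (Fin.succ 0) = v 1 := rfl
    rw [e'] at ih ⊢
    rw [ih]
    congr 1
    · apply if_congr _ rfl rfl
      constructor
      · rintro ⟨h0, h⟩
        exact ⟨h0, by omega, h⟩
      · rintro ⟨h0, _, h⟩
        exact ⟨h0, h⟩
    · congr 1
      · apply if_congr _ rfl rfl
        constructor
        · rintro ⟨h0, h, h1⟩
          exact ⟨by simp; omega, of_decide_eq_true h0, h1⟩
        · rintro ⟨h, h0, h1⟩
          exact ⟨decide_eq_true h0, by simp at h; omega, h1⟩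
      · apply Finset.sum_congr rfl
        intro i _
        apply if_congr _ rfl rfl
        constructor
        · rintro ⟨h, h2⟩
          exact ⟨by rw [Fin.val_succ]; omega, h2⟩
        · rintro ⟨h, h2⟩
          exact ⟨by rw [Fin.val_succ] at h; omega, h2⟩

/-- the word of a permutation -/
def word {n : ℕ} (σ : Equiv.Perm (Fin n)) : List ℕ := List.ofFn fun i => ((σ i : Fin n) : ℕ)

lemma des_eq {n : ℕ} (σ : Equiv.Perm (Fin n)) : des σ = ldes (word σ) := by
  unfold des word
  rw [ldes_ofFn, Finset.card_filter]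
  rfl

lemma pk_eq {n : ℕ} (σ : Equiv.Perm (Fin n)) : pk σ = lpk false (word σ) := by
  unfold pk word
  rw [lpk_ofFn, Finset.card_filter]
  simp only [Bool.false_eq_true, false_and, if_false, zero_add]
  rfl

lemma word_injective (n : ℕ) : Function.Injective (word : Equiv.Perm (Fin n) → List ℕ) := by
  intro σ τ h
  unfold word at h
  have h2 := List.ofFn_injective h
  ext i
  exact congrFun h2 i

lemma word_perm {n : ℕ} (σ : Equiv.Perm (Fin n)) : (word σ).Perm (List.range n).reverse := by
  unfold word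
  have h1 := Equiv.Perm.ofFn_comp_perm σ (fun i : Fin n => (i : ℕ))
  have h2 : List.ofFn (fun i : Fin n => (i : ℕ)) = List.range n := by
    apply List.ext_getElem
    · simp
    · intro i h1 h2
      simp
  rw [h2] at h1
  exact h1.trans (List.reverse_perm _).symm

lemma nodup_Sl (n : ℕ) : (Sl n).Nodup := by
  unfold Sl
  rw [← (List.permutations_perm_permutations' _).nodup_iff]
  apply List.nodup_permutations
  rw [List.nodup_reverse]
  exact List.nodup_range

lemma length_Sl (n : ℕ) : (Sl n).length = n.factorial := by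
  unfold Sl
  rw [← (List.permutations_perm_permutations' _).length_eq, List.length_permutations]
  simp

lemma sum_perm_eq (n : ℕ) (F : List ℕ → ℝ) :
    ∑ σ : Equiv.Perm (Fin n), F (word σ) = ((Sl n).map F).sum := by
  have h1 : univ.image (word : Equiv.Perm (Fin n) → List ℕ) = (Sl n).toFinset := by
    apply Finset.eq_of_subset_of_card_le
    · intro l hl
      rw [mem_image] at hl
      obtain ⟨σ, _, rfl⟩ := hl
      rw [List.mem_toFinset, mem_Sl]
      exact word_perm σ
    · rw [Finset.card_image_of_injective _ (word_injective n), List.toFinset_card_of_nodup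
        (nodup_Sl n), length_Sl, Finset.card_univ, Fintype.card_perm, Fintype.card_fin]
  rw [← Finset.sum_image (f := F) (g := word) (fun a _ b _ h => word_injective n h), h1,
    List.sum_toFinset _ (nodup_Sl n)]

lemma weighted_eq (κ : ℝ) (m q : ℕ) (hq : q ≤ m) : weighted κ (m + 1) (q + 1) = W κ (m - q) q := by
  rw [← sum_Sl_eq κ m q hq, ← sum_perm_eq (m + 1)]
  unfold weighted
  apply Finset.sum_congr rfl
  intro σ _
  rw [des_eq, pk_eq]
  simp only [Nat.add_right_cancel_iff]

lemma BoEl_cast (n k : ℕ) : (BoEl n k : ℝ) = weighted 2 n k := by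
  unfold BoEl weighted
  push_cast
  rfl

lemma Eul_cast (n k : ℕ) : (Eul n k : ℝ) = weighted 1 n k := by
  unfold Eul weighted
  rw [Finset.card_filter]
  push_cast
  simp

/-- **The columns are log-concave.**  For every `k ≥ 1` and `n ≥ k + 1`,
`BoEl(n,k)² ≥ BoEl(n-1,k) · BoEl(n+1,k)`; more generally the same holds when each peak carries any
real weight `κ ≥ 1` (`κ = 2` are the Boolean–Eulerian numbers and `κ = 1` the Eulerian
numbers). -/
theorem result :
    (∀ k n : ℕ, 2 ≤ k → k + 1 ≤ n → BoEl (n - 1) k * BoEl (n + 1) k ≤ BoEl n k ^ 2) ∧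
    (∀ k n : ℕ, 1 ≤ k → k + 1 ≤ n → Eul (n - 1) k * Eul (n + 1) k ≤ Eul n k ^ 2) ∧
    (∀ κ : ℝ, 1 ≤ κ → ∀ k n : ℕ, 1 ≤ k → k + 1 ≤ n →
      weighted κ (n - 1) k * weighted κ (n + 1) k ≤ weighted κ n k ^ 2) := by
  have key : ∀ κ : ℝ, 1 ≤ κ → ∀ k n : ℕ, 1 ≤ k → k + 1 ≤ n →
      weighted κ (n - 1) k * weighted κ (n + 1) k ≤ weighted κ n k ^ 2 := by
    intro κ hκ k n hk hn
    obtain ⟨q, rfl⟩ : ∃ q, k = q + 1 := ⟨k - 1, by omega⟩
    obtain ⟨p, rfl⟩ : ∃ p, n = p + q + 2 := ⟨n - q - 2, by omega⟩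
    have h1 := weighted_eq κ (p + q) q (by omega)
    have h2 := weighted_eq κ (p + q + 1) q (by omega)
    have h3 := weighted_eq κ (p + q + 2) q (by omega)
    rw [show p + q - q = p by omega] at h1
    rw [show p + q + 1 - q = p + 1 by omega] at h2
    rw [show p + q + 2 - q = p + 2 by omega] at h3
    rw [show p + q + 2 - 1 = p + q + 1 by omega, h1, h3]
    have h4 : weighted κ (p + q + 2) (q + 1) = W κ (p + 1) q := h2
    rw [h4]
    exact W_logconcave hκ q p
  refine ⟨?_, ?_, key⟩
  · intro k n hk hn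
    have h := key 2 (by norm_num) k n (by omega) hn
    rw [← BoEl_cast, ← BoEl_cast, ← BoEl_cast] at h
    exact_mod_cast h
  · intro k n hk hn
    have h := key 1 (by norm_num) k n (by omega) hn
    rw [← Eul_cast, ← Eul_cast, ← Eul_cast] at h
    exact_mod_cast h

end Pool.Agent.Results.MP_2f7936_co.ColumnsLogConcave
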